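import Pool.Agent.R479.HK.Prim

/-!
# Sums over the primes up to `y`
-/

set_option autoImplicit false

namespace Pool.Agent.H598.HK

open Filter Topology

/-- the primes `≤ y` -/
def Pr (y : ℕ) : Finset ℕ := (Finset.Ioc 0 y).filter Nat.Prime

theorem mem_Pr {y p : ℕ} : p ∈ Pr y ↔ p ≤ y ∧ p.Prime := by
  unfold Pr
  rw [Finset.mem_filter, Finset.mem_Ioc]
  exact ⟨fun h => ⟨h.1.2, h.2⟩, fun h => ⟨⟨h.2.pos, h.1⟩, h.2⟩⟩

theorem card_Pr (y : ℕ) : (Pr y).card = Nat.primeCounting y := by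
  rw [Nat.primeCounting, Nat.primeCounting', Nat.count_eq_card_filter_range]
  congr 1
  ext p
  rw [mem_Pr, Finset.mem_filter, Finset.mem_range, Nat.lt_succ_iff]

theorem theta_Pr (x : ℝ) : Chebyshev.theta x = ∑ p ∈ Pr ⌊x⌋₊, Real.log p := rfl

theorem Pr_mono {x y : ℕ} (h : x ≤ y) : Pr x ⊆ Pr y := by
  intro p hp
  rw [mem_Pr] at hp ⊢
  exact ⟨hp.1.trans h, hp.2⟩

/-- `E(x) - E(x/4) ≥ (3/4) (1 - ε) x / log x` for `E(x) = π(x) log x - θ(x)` -/
theorem E_diff {ε : ℝ} (hε : 0 < ε) (hε1 : ε < 1) : ∀ᶠ x : ℝ in atTop,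
    (3 / 4) * (1 - ε) * (x / Real.log x) ≤
      ((Nat.primeCounting ⌊x⌋₊ : ℝ) * Real.log x - Chebyshev.theta x) -
      ((Nat.primeCounting ⌊x / 4⌋₊ : ℝ) * Real.log (x / 4) - Chebyshev.theta (x / 4)) := by
  have h1 : ∀ᶠ x : ℝ in atTop, 1 - ε < Chebyshev.theta x / x :=
    Pool.Agent.Cov.PNT.theta_div_tendsto.eventually (lt_mem_nhds (by linarith))
  obtain ⟨t₁, ht₁⟩ := eventually_atTop.mp h1
  set t₀ : ℝ := max t₁ 2 with ht₀
  have h2 : (2 : ℝ) ≤ t₀ := le_max_right _ _
  have h3 : ∀ t : ℝ, t₀ ≤ t → (1 - ε) * t ≤ Chebyshev.theta t := by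
    intro t ht
    have h4 := ht₁ t ((le_max_left _ _).trans ht)
    rw [lt_div_iff₀ (by linarith)] at h4
    exact h4.le
  filter_upwards [eventually_ge_atTop (4 * t₀)] with x hx
  have hx4 : t₀ ≤ x / 4 := by linarith
  have hx42 : 2 ≤ x / 4 := h2.trans hx4
  have hx2 : (2 : ℝ) ≤ x := by linarith
  have hlx : 0 < Real.log x := Real.log_pos (by linarith)
  have hlx4 : 0 < Real.log (x / 4) := Real.log_pos (by linarith)
  have hint : MeasureTheory.IntegrableOn (fun t => Chebyshev.theta t / (t * Real.log t ^ 2))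
      (Set.Icc 2 x) MeasureTheory.volume := Chebyshev.integrableOn_theta_div_id_mul_log_sq x
  have hi1 : IntervalIntegrable (fun t => Chebyshev.theta t / (t * Real.log t ^ 2))
      MeasureTheory.volume 2 (x / 4) := by
    rw [intervalIntegrable_iff_integrableOn_Icc_of_le hx42]
    exact hint.mono_set (Set.Icc_subset_Icc le_rfl (by linarith))
  have hi2 : IntervalIntegrable (fun t => Chebyshev.theta t / (t * Real.log t ^ 2))
      MeasureTheory.volume (x / 4) x := by
    rw [intervalIntegrable_iff_integrableOn_Icc_of_le (by linarith)]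
    exact hint.mono_set (Set.Icc_subset_Icc hx42 le_rfl)
  have h5 := Chebyshev.primeCounting_eq_theta_div_log_add_integral hx2
  rw [← intervalIntegral.integral_add_adjacent_intervals hi1 hi2] at h5
  have h5' := Chebyshev.primeCounting_eq_theta_div_log_add_integral hx42
  have h6 : 0 ≤ ∫ t in (2 : ℝ)..(x / 4), Chebyshev.theta t / (t * Real.log t ^ 2) := by
    refine intervalIntegral.integral_nonneg hx42 fun t ht => ?_
    have := Chebyshev.theta_nonneg t
    have : (0 : ℝ) < t := by linarith [ht.1]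
    positivity
  have h7 : (3 / 4 * x) * ((1 - ε) / Real.log x ^ 2) ≤
      ∫ t in (x / 4)..x, Chebyshev.theta t / (t * Real.log t ^ 2) := by
    have h8 : ∫ _ in (x / 4)..x, (1 - ε) / Real.log x ^ 2 =
        (3 / 4 * x) * ((1 - ε) / Real.log x ^ 2) := by
      rw [intervalIntegral.integral_const, smul_eq_mul]
      ring
    rw [← h8]
    refine intervalIntegral.integral_mono_on (by linarith) (by simp) hi2 fun t ht => ?_
    have ht2 : (2 : ℝ) ≤ t := hx42.trans ht.1
    have ht0 : (0 : ℝ) < t := by linarith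
    have hlt : 0 < Real.log t := Real.log_pos (by linarith)
    have hle : Real.log t ≤ Real.log x := Real.log_le_log ht0 ht.2
    have h9 := h3 t (hx4.trans ht.1)
    calc (1 - ε) / Real.log x ^ 2 ≤ (1 - ε) / Real.log t ^ 2 := by
          have : 0 ≤ 1 - ε := by linarith
          gcongr
      _ = ((1 - ε) * t) / (t * Real.log t ^ 2) := by
          field_simp
      _ ≤ Chebyshev.theta t / (t * Real.log t ^ 2) := by gcongr
  set I1 : ℝ := ∫ t in (2 : ℝ)..(x / 4), Chebyshev.theta t / (t * Real.log t ^ 2) with hI1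
  set I2 : ℝ := ∫ t in (x / 4)..x, Chebyshev.theta t / (t * Real.log t ^ 2) with hI2
  have e1 : (Nat.primeCounting ⌊x⌋₊ : ℝ) * Real.log x - Chebyshev.theta x =
      (I1 + I2) * Real.log x := by
    rw [h5]
    field_simp
    ring
  have e2 : (Nat.primeCounting ⌊x / 4⌋₊ : ℝ) * Real.log (x / 4) - Chebyshev.theta (x / 4) =
      I1 * Real.log (x / 4) := by
    rw [h5']
    field_simp
    ring
  rw [e1, e2]
  have h10 : Real.log (x / 4) ≤ Real.log x := Real.log_le_log (by linarith) (by linarith)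
  have h11 : I1 * Real.log (x / 4) ≤ I1 * Real.log x := by gcongr
  have h12 : (3 / 4 * x) * ((1 - ε) / Real.log x ^ 2) * Real.log x ≤ I2 * Real.log x := by
    gcongr
  have h13 : (3 / 4 * x) * ((1 - ε) / Real.log x ^ 2) * Real.log x =
      (3 / 4) * (1 - ε) * (x / Real.log x) := by
    field_simp
  linarith

/-- the weight of the prime `p` -/
noncomputable def wt (y : ℕ) (p : ℕ) : ℝ := max 0 (Real.log 4 + Real.log p - Real.log y)

theorem wt_nonneg (y p : ℕ) : 0 ≤ wt y p := le_max_left _ _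

/-- the total weight of the primes `≤ y` -/
theorem wt_sum_le {y : ℕ} (hy : 4 ≤ y) : ∑ p ∈ Pr y, wt y p ≤
    (Nat.primeCounting y : ℝ) * Real.log 4 -
      (((Nat.primeCounting y : ℝ) * Real.log y - Chebyshev.theta y) -
      ((Nat.primeCounting ⌊(y : ℝ) / 4⌋₊ : ℝ) * Real.log ((y : ℝ) / 4) -
        Chebyshev.theta ((y : ℝ) / 4))) := by
  classical
  have hyR : (4 : ℝ) ≤ y := by exact_mod_cast hy
  have hy0 : (0 : ℝ) < y := by linarith
  set z : ℕ := ⌊(y : ℝ) / 4⌋₊ with hz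
  have hzy : z ≤ y := by
    rw [hz]
    apply Nat.floor_le_of_le
    linarith
  have hlog4 : Real.log ((y : ℝ) / 4) = Real.log y - Real.log 4 :=
    Real.log_div hy0.ne' (by norm_num)
  rw [← Finset.sum_sdiff (Pr_mono hzy)]
  have h1 : ∑ p ∈ Pr z, wt y p = 0 := by
    refine Finset.sum_eq_zero fun p hp => ?_
    rw [mem_Pr] at hp
    have h2 : (p : ℝ) ≤ (y : ℝ) / 4 := by
      calc (p : ℝ) ≤ (z : ℝ) := by exact_mod_cast hp.1
        _ ≤ (y : ℝ) / 4 := Nat.floor_le (by positivity)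
    have h3 : Real.log p ≤ Real.log ((y : ℝ) / 4) :=
      Real.log_le_log (by exact_mod_cast hp.2.pos) h2
    rw [hlog4] at h3
    unfold wt
    exact max_eq_left (by linarith)
  have h2 : ∑ p ∈ Pr y \ Pr z, wt y p = ∑ p ∈ Pr y \ Pr z, (Real.log p - Real.log ((y : ℝ) / 4)) := by
    refine Finset.sum_congr rfl fun p hp => ?_
    rw [Finset.mem_sdiff, mem_Pr, mem_Pr] at hp
    have h3 : z < p := by
      by_contra hcon
      exact hp.2 ⟨not_lt.mp hcon, hp.1.2⟩
    have h4 : (y : ℝ) / 4 < p := (Nat.floor_lt (by positivity)).mp h3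
    have h5 : Real.log ((y : ℝ) / 4) ≤ Real.log p := Real.log_le_log (by positivity) h4.le
    rw [hlog4] at h5 ⊢
    unfold wt
    rw [max_eq_right (by linarith)]
    ring
  rw [h1, h2, add_zero, Finset.sum_sub_distrib, Finset.sum_const, nsmul_eq_mul]
  have h3 : ∑ p ∈ Pr y \ Pr z, Real.log (p : ℝ) = Chebyshev.theta y - Chebyshev.theta ((y : ℝ) / 4) := by
    rw [theta_Pr, theta_Pr, Nat.floor_natCast, ← hz, ← Finset.sum_sdiff (Pr_mono hzy)]
    ring
  have h4 : ((Pr y \ Pr z).card : ℝ) = (Nat.primeCounting y : ℝ) - (Nat.primeCounting z : ℝ) := by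
    rw [Finset.card_sdiff_of_subset (Pr_mono hzy), Nat.cast_sub (Finset.card_le_card (Pr_mono hzy)),
      card_Pr, card_Pr]
  rw [h3, h4, hlog4]
  apply le_of_eq
  ring

/-- bounds for `π` -/
theorem pi_bounds {ε : ℝ} (hε : 0 < ε) : ∀ᶠ y : ℕ in atTop,
    (1 - ε) * ((y : ℝ) / Real.log y) ≤ (Nat.primeCounting y : ℝ) ∧
    (Nat.primeCounting y : ℝ) ≤ (1 + ε) * ((y : ℝ) / Real.log y) := by
  have h1 := Pool.Agent.Cov.PNT.pi_tendsto
  have h2 := (tendsto_natCast_atTop_atTop (R := ℝ)).eventually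
    ((h1.eventually (lt_mem_nhds (show 1 - ε < 1 by linarith))).and
    ((h1.eventually (gt_mem_nhds (show (1 : ℝ) < 1 + ε by linarith))).and
    (eventually_gt_atTop (1 : ℝ))))
  filter_upwards [h2] with y hy
  obtain ⟨h3, h4, h5⟩ := hy
  have hy0 : (0 : ℝ) < y := by linarith
  have hl : 0 < Real.log y := Real.log_pos h5
  rw [Nat.floor_natCast] at h3 h4
  rw [lt_div_iff₀ hy0] at h3
  rw [div_lt_iff₀ hy0] at h4
  constructor
  · rw [← mul_div_assoc, div_le_iff₀ hl]
    exact h3.le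
  · rw [← mul_div_assoc, le_div_iff₀ hl]
    exact h4.le

/-- the total weight -/
theorem wt_bound {ε : ℝ} (hε : 0 < ε) : ∀ᶠ y : ℕ in atTop,
    ∑ p ∈ Pr y, wt y p ≤ (2 * Real.log 2 - 3 / 4 + ε) * ((y : ℝ) / Real.log y) := by
  set η : ℝ := min (1 / 2) (ε / 4) with hη
  have hη0 : 0 < η := lt_min (by norm_num) (by linarith)
  have hη1 : η < 1 := lt_of_le_of_lt (min_le_left _ _) (by norm_num)
  have hηε : η ≤ ε / 4 := min_le_right _ _
  have h1 := (tendsto_natCast_atTop_atTop (R := ℝ)).eventually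
    ((E_diff hη0 hη1).and (eventually_gt_atTop (1 : ℝ)))
  filter_upwards [h1, pi_bounds hη0, eventually_ge_atTop 4] with y h2 h3 hy
  obtain ⟨h4, h5⟩ := h2
  have h6 := wt_sum_le hy
  rw [Nat.floor_natCast] at h4
  have hl : 0 < Real.log y := Real.log_pos h5
  have hY : 0 < (y : ℝ) / Real.log y := by positivity
  have h7 : Real.log 4 = 2 * Real.log 2 := by
    rw [show (4 : ℝ) = 2 ^ 2 by norm_num, Real.log_pow]
    norm_num
  have h8 : Real.log 4 ≤ 2 := by
    rw [h7]
    have := Real.log_two_lt_d9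
    linarith
  have h8' : 0 ≤ Real.log 4 := Real.log_nonneg (by norm_num)
  have h9 : (Nat.primeCounting y : ℝ) * Real.log 4 ≤ ((1 + η) * ((y : ℝ) / Real.log y)) * Real.log 4 := by
    gcongr
    exact h3.2
  have h10 : ((1 + η) * ((y : ℝ) / Real.log y)) * Real.log 4 ≤
      (Real.log 4 + 2 * η) * ((y : ℝ) / Real.log y) := by
    have h11 : (1 + η) * Real.log 4 ≤ Real.log 4 + 2 * η := by nlinarith
    calc ((1 + η) * ((y : ℝ) / Real.log y)) * Real.log 4 =
        ((1 + η) * Real.log 4) * ((y : ℝ) / Real.log y) := by ring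
      _ ≤ _ := by gcongr
  have h12 : (3 / 4 - η) * ((y : ℝ) / Real.log y) ≤ 3 / 4 * (1 - η) * ((y : ℝ) / Real.log y) := by
    gcongr
    linarith
  have h13 : (2 * Real.log 2 - 3 / 4 + ε) * ((y : ℝ) / Real.log y) =
      (Real.log 4 + 2 * η) * ((y : ℝ) / Real.log y) - (3 / 4 - η) * ((y : ℝ) / Real.log y) +
      (ε - 3 * η) * ((y : ℝ) / Real.log y) := by
    rw [h7]
    ring
  have h14 : 0 ≤ (ε - 3 * η) * ((y : ℝ) / Real.log y) := mul_nonneg (by linarith) hY.le
  linarith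

/-- a set of primes `≤ y` with `∑ log p ≥ y / log y` has at most `(1 + ε) (∑ log p) / log y`
elements -/
theorem card_bound {ε : ℝ} (hε : 0 < ε) : ∀ᶠ y : ℕ in atTop, ∀ U : Finset ℕ, U ⊆ Pr y →
    (y : ℝ) / Real.log y ≤ ∑ p ∈ U, Real.log p →
    (U.card : ℝ) ≤ (1 + ε) * ((∑ p ∈ U, Real.log p) / Real.log y) := by
  set η : ℝ := min (1 / 4) (ε / 4) with hη
  have hη0 : 0 < η := lt_min (by norm_num) (by linarith)
  have hη1 : η ≤ 1 / 4 := min_le_left _ _
  have hηε : η ≤ ε / 4 := min_le_right _ _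
  have hll : ∀ᶠ y : ℝ in atTop, 3 * Real.log (Real.log y) ≤ η * Real.log y := by
    have h1 : Tendsto (fun x : ℝ => Real.log x / x) atTop (𝓝 0) := by
      have := Real.isLittleO_log_id_atTop.tendsto_div_nhds_zero
      simpa using this
    have h2 := (h1.comp Real.tendsto_log_atTop).eventually
      (gt_mem_nhds (show (0 : ℝ) < η / 3 by linarith))
    filter_upwards [h2, Real.tendsto_log_atTop.eventually_ge_atTop 1] with y h3 h4
    simp only [Function.comp_apply] at h3
    rw [div_lt_iff₀ (by linarith)] at h3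
    linarith
  have h1 := (tendsto_natCast_atTop_atTop (R := ℝ)).eventually
    (hll.and ((eventually_gt_atTop (1 : ℝ)).and
    ((Real.tendsto_log_atTop.eventually_ge_atTop (1 / η)).and
    (Real.tendsto_log_atTop.eventually_ge_atTop 1))))
  filter_upwards [h1] with y hyall U hU hD
  obtain ⟨h2, h3, h4, h5⟩ := hyall
  classical
  have hy0 : (0 : ℝ) < y := by linarith
  set l : ℝ := Real.log y with hl
  have hl0 : 0 < l := by linarith
  set D : ℝ := ∑ p ∈ U, Real.log (p : ℝ) with hDdef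
  have hD0 : 0 < D := lt_of_lt_of_le (by positivity) hD
  set z : ℝ := (y : ℝ) / l ^ 3 with hz
  have hz0 : 0 < z := by positivity
  have hlogz : (1 - η) * l ≤ Real.log z := by
    rw [hz, Real.log_div hy0.ne' (by positivity), Real.log_pow, ← hl]
    push_cast
    linarith
  -- the small members
  have hsmall : ((U.filter (fun p : ℕ => (p : ℝ) ≤ z)).card : ℝ) ≤ z := by
    have h6 : U.filter (fun p : ℕ => (p : ℝ) ≤ z) ⊆ Finset.Ioc 0 ⌊z⌋₊ := by
      intro p hp
      rw [Finset.mem_filter] at hp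
      have := (mem_Pr.mp (hU hp.1)).2.pos
      rw [Finset.mem_Ioc]
      exact ⟨this, Nat.le_floor hp.2⟩
    have h7 := Finset.card_le_card h6
    rw [Nat.card_Ioc, Nat.sub_zero] at h7
    calc ((U.filter (fun p : ℕ => (p : ℝ) ≤ z)).card : ℝ) ≤ (⌊z⌋₊ : ℝ) := by exact_mod_cast h7
      _ ≤ z := Nat.floor_le hz0.le
  have hbig : ((U.filter (fun p : ℕ => ¬ (p : ℝ) ≤ z)).card : ℝ) * Real.log z ≤ D := by
    rw [← nsmul_eq_mul]
    calc (U.filter (fun p : ℕ => ¬ (p : ℝ) ≤ z)).card • Real.log z ≤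
        ∑ p ∈ U.filter (fun p : ℕ => ¬ (p : ℝ) ≤ z), Real.log (p : ℝ) := by
          refine Finset.card_nsmul_le_sum _ _ _ fun p hp => ?_
          rw [Finset.mem_filter, not_le] at hp
          exact Real.log_le_log hz0 hp.2.le
      _ ≤ D := by
          refine Finset.sum_le_sum_of_subset_of_nonneg (Finset.filter_subset _ _) fun p hp _ => ?_
          exact Real.log_nonneg (by exact_mod_cast (mem_Pr.mp (hU hp)).2.one_lt.le)
  have hcard : (U.card : ℝ) = ((U.filter (fun p : ℕ => (p : ℝ) ≤ z)).card : ℝ) +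
      ((U.filter (fun p : ℕ => ¬ (p : ℝ) ≤ z)).card : ℝ) := by
    rw [← Finset.card_filter_add_card_filter_not (s := U) (fun p : ℕ => (p : ℝ) ≤ z)]
    push_cast
    rfl
  have h8 : ((U.filter (fun p : ℕ => ¬ (p : ℝ) ≤ z)).card : ℝ) * ((1 - η) * l) ≤ D := by
    refine le_trans ?_ hbig
    gcongr
  have h9 : ((U.filter (fun p : ℕ => ¬ (p : ℝ) ≤ z)).card : ℝ) ≤ (1 + 2 * η) * (D / l) := by
    have h10 : (1 : ℝ) ≤ (1 + 2 * η) * (1 - η) := by nlinarith
    have h11 : (0 : ℝ) < 1 - η := by linarith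
    have h12 : ((U.filter (fun p : ℕ => ¬ (p : ℝ) ≤ z)).card : ℝ) ≤ D / ((1 - η) * l) := by
      rw [le_div_iff₀ (by positivity)]
      exact h8
    refine h12.trans ?_
    rw [div_le_iff₀ (by positivity)]
    have h13 : (1 + 2 * η) * (D / l) * ((1 - η) * l) = ((1 + 2 * η) * (1 - η)) * D := by
      field_simp
    rw [h13]
    nlinarith
  have h14 : z ≤ η * (D / l) := by
    have h15 : z ≤ η * (((y : ℝ) / l) / l) := by
      rw [hz]
      rw [div_le_iff₀ hη0] at h4
      rw [div_le_iff₀ (by positivity)]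
      have h16 : η * (((y : ℝ) / l) / l) * l ^ 3 = (l * η) * y := by field_simp
      rw [h16]
      nlinarith
    refine h15.trans ?_
    gcongr
  have hDl : 0 < D / l := by positivity
  rw [hcard]
  have : (1 + ε) * (D / l) = (1 + 2 * η) * (D / l) + η * (D / l) + (ε - 3 * η) * (D / l) := by ring
  have : 0 ≤ (ε - 3 * η) * (D / l) := mul_nonneg (by linarith) hDl.le
  linarith

end Pool.Agent.H598.HK
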