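import Pool.Agent.R479.HK.Prim

/-!
# Two sets of primes with nearly equal sums of logarithms and a small weighted symmetric difference
-/

set_option autoImplicit false

namespace Pool.Agent.H598.HK

open Finset

/-- the indicator of `T` -/
noncomputable def e (T : Finset ℕ) (p : ℕ) : ℝ := by classical exact if p ∈ T then 1 else 0

theorem e_symm (T T' : Finset ℕ) (p : ℕ) :
    e (symmDiff T T') p = e T p + e T' p - 2 * (e T p * e T' p) := by
  classical
  unfold e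
  by_cases h1 : p ∈ T <;> by_cases h2 : p ∈ T' <;> simp [Finset.mem_symmDiff, h1, h2]
  norm_num

theorem sum_eq_e {P T : Finset ℕ} (w : ℕ → ℝ) (hT : T ⊆ P) :
    ∑ p ∈ T, w p = ∑ p ∈ P, w p * e T p := by
  classical
  unfold e
  simp only [mul_ite, mul_one, mul_zero]
  rw [← Finset.sum_filter]
  congr 1
  ext p
  simp only [Finset.mem_filter]
  exact ⟨fun h => ⟨hT h, h⟩, fun h => h.2⟩

/-- **Plotkin's argument.** Among `n` subsets of `P` two have a symmetric difference of weight at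
most `n / (2 (n - 1))` times the weight of `P`. -/
theorem plotkin {P : Finset ℕ} (w : ℕ → ℝ) (hw : ∀ p, 0 ≤ w p) (S : Finset (Finset ℕ))
    (hS : ∀ T ∈ S, T ⊆ P) (hn : 2 ≤ S.card) :
    ∃ T ∈ S, ∃ T' ∈ S, T ≠ T' ∧
      (∑ p ∈ symmDiff T T', w p) * (2 * ((S.card : ℝ) - 1)) ≤ (∑ p ∈ P, w p) * (S.card : ℝ) := by
  classical
  by_contra hcon
  push Not at hcon
  have hnR : (2 : ℝ) ≤ S.card := by exact_mod_cast hn
  have hsub : ∀ x ∈ S ×ˢ S, symmDiff x.1 x.2 ⊆ P := by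
    intro x hx
    rw [Finset.mem_product] at hx
    intro p hp
    rw [Finset.mem_symmDiff] at hp
    rcases hp with ⟨h, -⟩ | ⟨h, -⟩
    · exact hS _ hx.1 h
    · exact hS _ hx.2 h
  -- the sum over all pairs
  have hall : ∑ x ∈ S ×ˢ S, (∑ p ∈ symmDiff x.1 x.2, w p) ≤
      (∑ p ∈ P, w p) * ((S.card : ℝ) ^ 2 / 2) := by
    rw [Finset.sum_congr rfl fun x hx => sum_eq_e w (hsub x hx), Finset.sum_comm, Finset.sum_mul]
    refine Finset.sum_le_sum fun p _ => ?_
    rw [← Finset.mul_sum]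
    refine mul_le_mul_of_nonneg_left ?_ (hw p)
    have h1 : ∑ x ∈ S ×ˢ S, e (symmDiff x.1 x.2) p =
        2 * (S.card : ℝ) * (∑ T ∈ S, e T p) - 2 * (∑ T ∈ S, e T p) ^ 2 := by
      rw [Finset.sum_product]
      simp only [e_symm, Finset.sum_sub_distrib, Finset.sum_add_distrib, Finset.sum_const,
        nsmul_eq_mul, ← Finset.mul_sum]
      rw [← Finset.sum_mul]
      ring
    rw [h1]
    nlinarith [sq_nonneg ((S.card : ℝ) - 2 * ∑ T ∈ S, e T p)]
  have hnn : ∀ x ∈ S ×ˢ S, 0 ≤ ∑ p ∈ symmDiff x.1 x.2, w p := fun x _ =>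
    Finset.sum_nonneg fun p _ => hw p
  have hoff : ∑ x ∈ S.offDiag, (∑ p ∈ symmDiff x.1 x.2, w p) ≤
      ∑ x ∈ S ×ˢ S, (∑ p ∈ symmDiff x.1 x.2, w p) := by
    refine Finset.sum_le_sum_of_subset_of_nonneg ?_ fun x hx _ => hnn x hx
    intro x hx
    rw [Finset.mem_offDiag] at hx
    exact Finset.mem_product.mpr ⟨hx.1, hx.2.1⟩
  have hne : S.offDiag.Nonempty := by
    obtain ⟨a, ha, b, hb, hab⟩ := Finset.one_lt_card.mp (show 1 < S.card by omega)
    exact ⟨(a, b), Finset.mem_offDiag.mpr ⟨ha, hb, hab⟩⟩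
  have hlow : ∑ _x ∈ S.offDiag, ((∑ p ∈ P, w p) * (S.card : ℝ) / (2 * ((S.card : ℝ) - 1))) <
      ∑ x ∈ S.offDiag, (∑ p ∈ symmDiff x.1 x.2, w p) := by
    refine Finset.sum_lt_sum_of_nonempty hne fun x hx => ?_
    rw [Finset.mem_offDiag] at hx
    rw [div_lt_iff₀ (by linarith)]
    exact hcon x.1 hx.1 x.2 hx.2.1 hx.2.2
  rw [Finset.sum_const, nsmul_eq_mul, Finset.offDiag_card, Nat.cast_sub (by nlinarith)] at hlow
  push_cast at hlow
  have h2 : ((S.card : ℝ) * S.card - S.card) *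
      ((∑ p ∈ P, w p) * (S.card : ℝ) / (2 * ((S.card : ℝ) - 1))) =
      (∑ p ∈ P, w p) * ((S.card : ℝ) ^ 2 / 2) := by
    have : (S.card : ℝ) - 1 ≠ 0 := by
      have : (0 : ℝ) < (S.card : ℝ) - 1 := by linarith
      exact this.ne'
    field_simp
  rw [h2] at hlow
  linarith

/-- the pigeonhole step -/
theorem pigeon (P : Finset ℕ) (f : Finset ℕ → ℝ) (hf0 : ∀ T ⊆ P, 0 ≤ f T) {θ : ℝ} (hθ : 0 < θ)
    (hf : ∀ T ⊆ P, f T ≤ θ) (l m : ℕ) (hlm : l + m + 2 ≤ P.card) :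
    ∃ S : Finset (Finset ℕ), (∀ T ∈ S, T ⊆ P) ∧ 2 ^ m < S.card ∧
      ∀ T ∈ S, ∀ T' ∈ S, |f T - f T'| ≤ θ / 2 ^ l := by
  classical
  have h2l : (0 : ℝ) < 2 ^ l := by positivity
  have hmaps : ∀ T ∈ P.powerset, ⌊f T * 2 ^ l / θ⌋₊ ∈ Finset.range (2 ^ l + 1) := by
    intro T hT
    rw [Finset.mem_powerset] at hT
    rw [Finset.mem_range, Nat.lt_succ_iff]
    refine Nat.floor_le_of_le ?_
    rw [div_le_iff₀ hθ]
    push_cast
    have := hf T hT
    nlinarith
  have hcard : (Finset.range (2 ^ l + 1)).card * 2 ^ m < P.powerset.card := by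
    rw [Finset.card_range, Finset.card_powerset]
    have h1 : 2 ^ (l + m + 2) ≤ 2 ^ P.card := Nat.pow_le_pow_right (by norm_num) hlm
    have h2 : 2 ^ (l + m + 2) = 4 * (2 ^ l * 2 ^ m) := by
      rw [pow_add, pow_add]
      ring
    have h3 : 2 ^ m ≤ 2 ^ l * 2 ^ m := Nat.le_mul_of_pos_left _ (by positivity)
    have h4 : 0 < 2 ^ m := by positivity
    calc (2 ^ l + 1) * 2 ^ m = 2 ^ l * 2 ^ m + 2 ^ m := by ring
      _ < 4 * (2 ^ l * 2 ^ m) := by omega
      _ ≤ 2 ^ P.card := by rw [← h2]; exact h1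
  obtain ⟨i, -, hi⟩ := Finset.exists_lt_card_fiber_of_mul_lt_card_of_maps_to hmaps hcard
  refine ⟨_, ?_, hi, ?_⟩
  · intro T hT
    exact Finset.mem_powerset.mp (Finset.mem_filter.mp hT).1
  · intro T hT T' hT'
    rw [Finset.mem_filter, Finset.mem_powerset] at hT hT'
    have ha := hf0 T hT.1
    have hb := hf0 T' hT'.1
    have h1 : (i : ℝ) ≤ f T * 2 ^ l / θ := by
      rw [← hT.2]; exact Nat.floor_le (by positivity)
    have h2 : f T * 2 ^ l / θ < i + 1 := by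
      rw [← hT.2]; exact Nat.lt_floor_add_one _
    have h3 : (i : ℝ) ≤ f T' * 2 ^ l / θ := by
      rw [← hT'.2]; exact Nat.floor_le (by positivity)
    have h4 : f T' * 2 ^ l / θ < i + 1 := by
      rw [← hT'.2]; exact Nat.lt_floor_add_one _
    have h5 : |f T * 2 ^ l / θ - f T' * 2 ^ l / θ| ≤ 1 := by
      rw [abs_le]
      constructor <;> linarith
    have h6 : f T * 2 ^ l / θ - f T' * 2 ^ l / θ = (f T - f T') * (2 ^ l / θ) := by ring
    rw [h6, abs_mul, abs_of_pos (by positivity : (0 : ℝ) < 2 ^ l / θ)] at h5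
    rw [le_div_iff₀ h2l]
    have h7 : |f T - f T'| * (2 ^ l / θ) * θ ≤ 1 * θ := by gcongr
    have h8 : |f T - f T'| * (2 ^ l / θ) * θ = |f T - f T'| * 2 ^ l := by field_simp
    linarith

/-- from two sets of primes to two coprime integers -/
theorem pair {P T T' : Finset ℕ} (hP : ∀ p ∈ P, p.Prime) (hT : T ⊆ P) (hT' : T' ⊆ P)
    (hne : T ≠ T') {δ : ℝ}
    (h : |(∑ p ∈ T, Real.log p) - ∑ p ∈ T', Real.log p| ≤ δ) :
    ∃ r s : ℕ, 0 < s ∧ s < r ∧ Nat.Coprime r s ∧ r * s = ∏ p ∈ symmDiff T T', p ∧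
      Real.log r - Real.log s ≤ δ := by
  classical
  set A := T \ T' with hA
  set B := T' \ T with hB
  have hAB : Disjoint A B := by
    rw [Finset.disjoint_left]
    intro p h1 h2
    rw [hA, Finset.mem_sdiff] at h1
    rw [hB, Finset.mem_sdiff] at h2
    exact h1.2 h2.1
  have hU : symmDiff T T' = A ∪ B := rfl
  have hAP : ∀ p ∈ A, p.Prime := fun p hp => hP p (hT (Finset.mem_sdiff.mp hp).1)
  have hBP : ∀ p ∈ B, p.Prime := fun p hp => hP p (hT' (Finset.mem_sdiff.mp hp).1)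
  set a := ∏ p ∈ A, p with ha
  set b := ∏ p ∈ B, p with hb
  have ha0 : 0 < a := Finset.prod_pos fun p hp => (hAP p hp).pos
  have hb0 : 0 < b := Finset.prod_pos fun p hp => (hBP p hp).pos
  have hcop : Nat.Coprime a b := by
    refine Nat.Coprime.prod_left fun p hp => Nat.Coprime.prod_right fun q hq => ?_
    refine (Nat.coprime_primes (hAP p hp) (hBP q hq)).mpr ?_
    rintro rfl
    exact (Finset.disjoint_left.mp hAB) hp hq
  have hprod : a * b = ∏ p ∈ symmDiff T T', p := by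
    rw [hU, Finset.prod_union hAB]
  have hlogA : Real.log a = ∑ p ∈ A, Real.log p := by
    rw [ha]
    push_cast
    exact Real.log_prod fun p hp => by
      have := (hAP p hp).pos
      positivity
  have hlogB : Real.log b = ∑ p ∈ B, Real.log p := by
    rw [hb]
    push_cast
    exact Real.log_prod fun p hp => by
      have := (hBP p hp).pos
      positivity
  have hdiff : (∑ p ∈ T, Real.log p) - ∑ p ∈ T', Real.log p = Real.log a - Real.log b := by
    rw [hlogA, hlogB]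
    have h1 : ∑ p ∈ T, Real.log (p : ℝ) = ∑ p ∈ T ∩ T', Real.log (p : ℝ) +
        ∑ p ∈ A, Real.log (p : ℝ) := (Finset.sum_inter_add_sum_sdiff T T' _).symm
    have h2 : ∑ p ∈ T', Real.log (p : ℝ) = ∑ p ∈ T' ∩ T, Real.log (p : ℝ) +
        ∑ p ∈ B, Real.log (p : ℝ) := (Finset.sum_inter_add_sum_sdiff T' T _).symm
    rw [h1, h2, Finset.inter_comm T' T]
    ring
  rw [hdiff] at h
  have hab : a ≠ b := by
    intro hcon
    rw [hcon, Nat.coprime_self] at hcop
    have hempty : ∀ (Z : Finset ℕ), (∀ p ∈ Z, p.Prime) → ∏ p ∈ Z, p = 1 → Z = ∅ := by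
      intro Z hZ h1
      by_contra hZne
      obtain ⟨p, hp⟩ := Finset.nonempty_iff_ne_empty.mpr hZne
      have h2 : p ∣ ∏ p ∈ Z, p := Finset.dvd_prod_of_mem _ hp
      rw [h1] at h2
      exact (hZ p hp).one_lt.ne' (Nat.dvd_one.mp h2)
    have hBe : B = ∅ := hempty B hBP hcop
    have hAe : A = ∅ := hempty A hAP (by rw [← ha, hcon, hcop])
    apply hne
    apply Finset.Subset.antisymm
    · exact Finset.sdiff_eq_empty_iff_subset.mp hAe
    · exact Finset.sdiff_eq_empty_iff_subset.mp hBe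
  rcases lt_or_gt_of_ne hab with hlt | hgt
  · refine ⟨b, a, ha0, hlt, hcop.symm, ?_, ?_⟩
    · rw [mul_comm, hprod]
    · have := (abs_le.mp h).1
      linarith
  · exact ⟨a, b, hb0, hgt, hcop, hprod, (abs_le.mp h).2⟩

end Pool.Agent.H598.HK
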