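import Pool.Agent.R479.HK.Prim

/-!
# The real-variable part of the estimate
-/

set_option autoImplicit false

namespace Pool.Agent.H598.HK

open Filter Topology

/-- `K0 = 2 + 4 log (3/2)`: the gain beats `K L / log L` -/
theorem core {K : ℝ} (hK : K < 2 + 4 * Real.log (3 / 2)) :
    ∃ ε : ℝ, 0 < ε ∧ ε ≤ 1 / 8 ∧ ∀ᶠ y : ℝ in atTop, ∀ u D L g : ℝ,
      D ≤ u * Real.log y → u ≤ (1 + ε) * (D / Real.log y) →
      (Real.log 2 - ε) * (y / Real.log y) ≤ g → g ≤ 2 * (y / Real.log y) →
      g ≤ L → D / 2 ≤ L → L ≤ D / 2 + 1 / 2 →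
      u * Real.log 4 - (Real.log 2 - 3 / 8 + ε) * (y / Real.log y) ≤ u * Real.log y - D →
      K * (L / Real.log L) < -D + g + u * Real.log (D + L - g) := by
  have hl32 : 0 < Real.log (3 / 2 : ℝ) := Real.log_pos (by norm_num)
  set K0 : ℝ := 2 + 4 * Real.log (3 / 2) with hK0
  set K1 : ℝ := max K 2 with hK1
  have hKK1 : K ≤ K1 := le_max_left _ _
  have hK12 : 2 ≤ K1 := le_max_right _ _
  have hK1K0 : K1 < K0 := max_lt hK (by linarith)
  set K2 : ℝ := (K1 + K0) / 2 with hK2
  have hK1K2 : K1 < K2 := by linarith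
  have hK2K0 : K2 < K0 := by linarith
  have hK22 : 2 < K2 := by linarith
  set x0 : ℝ := Real.exp (K2 / 2 - 1) / 6 with hx0
  have hx0pos : 0 < x0 := by positivity
  have h6x0 : Real.log (6 * x0) = K2 / 2 - 1 := by
    rw [hx0, mul_div_cancel₀ _ (by norm_num : (6 : ℝ) ≠ 0), Real.log_exp]
  have hx0lt : x0 < 3 / 8 := by
    have h1 : Real.exp (K2 / 2 - 1) < Real.exp (2 * Real.log (3 / 2)) := by
      apply Real.exp_lt_exp.mpr
      linarith
    have h2 : Real.exp (2 * Real.log (3 / 2)) = 9 / 4 := by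
      rw [two_mul, Real.exp_add, Real.exp_log (by norm_num)]
      norm_num
    rw [h2] at h1
    rw [hx0]
    linarith
  set κ : ℝ := (3 / 8 - x0) / 2 with hκ
  have hκ0 : 0 < κ := by linarith
  set ε : ℝ := min (1 / 8) (min ((K2 - K1) / K2) (κ / 4)) with hε
  have hε0 : 0 < ε := by
    refine lt_min (by norm_num) (lt_min ?_ ?_)
    · apply div_pos <;> linarith
    · linarith
  have hε8 : ε ≤ 1 / 8 := min_le_left _ _
  have hεK : ε ≤ (K2 - K1) / K2 := (min_le_right _ _).trans (min_le_left _ _)
  have hεκ : ε ≤ κ / 4 := (min_le_right _ _).trans (min_le_right _ _)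
  have hεK' : K1 ≤ K2 * (1 - ε) := by
    rw [le_div_iff₀ (by linarith)] at hεK
    linarith
  have hlog2 : 1 / 2 < Real.log 2 := by
    have := Real.log_two_gt_d9
    linarith
  have hc0 : 0 < Real.log 2 - ε := by linarith
  refine ⟨ε, hε0, hε8, ?_⟩
  -- `log ((log 2 - ε) y / log y) ≥ (1 - ε) log y`
  have hll : ∀ᶠ y : ℝ in atTop, (1 - ε) * Real.log y ≤
      Real.log ((Real.log 2 - ε) * (y / Real.log y)) := by
    have h1 : Tendsto (fun x : ℝ => Real.log x / x) atTop (𝓝 0) := by
      have := Real.isLittleO_log_id_atTop.tendsto_div_nhds_zero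
      simpa using this
    have h2 := (h1.comp Real.tendsto_log_atTop).eventually
      (gt_mem_nhds (show (0 : ℝ) < ε / 2 by linarith))
    filter_upwards [h2, eventually_gt_atTop 1, Real.tendsto_log_atTop.eventually_ge_atTop 1,
      Real.tendsto_log_atTop.eventually_ge_atTop (-Real.log (Real.log 2 - ε) / (ε / 2))]
      with y h3 hy h4 h5
    have hy0 : 0 < y := by linarith
    have hl : 0 < Real.log y := by linarith
    simp only [Function.comp_apply] at h3
    rw [div_lt_iff₀ hl] at h3
    rw [div_le_iff₀ (by linarith)] at h5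
    rw [Real.log_mul hc0.ne' (by positivity), Real.log_div hy0.ne' hl.ne']
    linarith
  filter_upwards [hll, eventually_gt_atTop 1, Real.tendsto_log_atTop.eventually_ge_atTop 1,
    Real.tendsto_log_atTop.eventually_ge_atTop (8 / κ),
    eventually_gt_atTop (2 * K1 / κ)] with y hlly hy hl1 hl8 hyK
  intro u D L g hDu huD hglow hgup hgL hDL hLD hw
  have hy0 : 0 < y := by linarith
  set l : ℝ := Real.log y with hl
  have hl0 : 0 < l := by linarith
  set Y : ℝ := y / l with hY
  have hY0 : 0 < Y := by positivity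
  have hg0 : 0 < g := lt_of_lt_of_le (by positivity) hglow
  have hL0 : 0 < L := by linarith
  have hlogL : (1 - ε) * l ≤ Real.log L := by
    refine hlly.trans ?_
    exact Real.log_le_log (by positivity) (by linarith)
  have hlogL0 : 0 < Real.log L := lt_of_lt_of_le (mul_pos (by linarith) hl0) hlogL
  have hL1 : 1 < L := by
    by_contra hcon
    rw [not_lt] at hcon
    have := Real.log_nonpos hL0.le hcon
    linarith
  have hD0 : 0 < D := by linarith
  have hu0 : 0 < u := by
    by_contra hcon
    rw [not_lt] at hcon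
    have : u * l ≤ 0 := mul_nonpos_of_nonpos_of_nonneg hcon hl0.le
    linarith
  have hDl : D / l ≤ u := by rw [div_le_iff₀ hl0]; exact hDu
  have hDl0 : 0 < D / l := by positivity
  set G : ℝ := D + L - g with hG
  have hGD : D ≤ G := by linarith
  have hG0 : 0 < G := by linarith
  -- step 1
  have s1 : Real.log (3 / 2 * D) - g / D ≤ Real.log G := by
    have h1 : Real.log (3 / 2 * D) - Real.log G ≤ (3 / 2 * D) / G - 1 := by
      rw [← Real.log_div (by positivity) hG0.ne']
      exact Real.log_le_sub_one_of_pos (by positivity)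
    have h2 : (3 / 2 * D) / G - 1 ≤ g / G := by
      rw [div_sub_one hG0.ne']
      apply div_le_div_of_nonneg_right _ hG0.le
      linarith
    have h3 : g / G ≤ g / D := by gcongr
    linarith
  have s1' : u * Real.log (3 / 2 * D) - 4 * Y / l ≤ u * Real.log G := by
    have h1 := mul_le_mul_of_nonneg_left s1 hu0.le
    have h2 : u * (g / D) ≤ 4 * Y / l := by
      calc u * (g / D) ≤ ((1 + ε) * (D / l)) * (g / D) := by gcongr
        _ = (1 + ε) * g / l := by field_simp
        _ ≤ (2 * (2 * Y)) / l := by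
            apply div_le_div_of_nonneg_right _ hl0.le
            have : 1 + ε ≤ 2 := by linarith
            calc (1 + ε) * g ≤ 2 * g := by gcongr
              _ ≤ 2 * (2 * Y) := by gcongr
        _ = 4 * Y / l := by ring
    rw [mul_sub] at h1
    linarith
  -- step 2
  have s2 : Real.log (3 / 2 * D) = l + Real.log (6 * D / y) - Real.log 4 := by
    rw [hl, ← Real.log_mul hy0.ne' (by positivity), ← Real.log_div (by positivity) (by norm_num)]
    congr 1
    field_simp
    ring
  -- step 3
  have s3 : Real.log (6 * D / y) = (K2 / 2 - 1) + Real.log (D / (x0 * y)) := by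
    rw [← h6x0, ← Real.log_mul (by positivity) (by positivity)]
    congr 1
    field_simp
  have s3' : (D / l) * (K2 / 2 - 1) ≤ u * (K2 / 2 - 1) :=
    mul_le_mul_of_nonneg_right hDl (by linarith)
  -- step 4
  have s4 : (D - x0 * y) / l - ε * x0 * Y ≤ u * Real.log (D / (x0 * y)) := by
    set X : ℝ := D / (x0 * y) with hX
    have hX0 : 0 < X := by positivity
    have h1 : 1 - 1 / X ≤ Real.log X := by
      have := Real.one_sub_inv_le_log_of_pos hX0
      rwa [inv_eq_one_div] at this
    have h2 : (D / l) * (1 - 1 / X) = (D - x0 * y) / l := by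
      rw [hX]
      field_simp
    rcases le_total 1 X with hX1 | hX1
    · have h3 : 0 ≤ Real.log X := Real.log_nonneg hX1
      calc (D - x0 * y) / l - ε * x0 * Y ≤ (D - x0 * y) / l := by
            have : 0 < ε * x0 * Y := by positivity
            linarith
        _ = (D / l) * (1 - 1 / X) := h2.symm
        _ ≤ (D / l) * Real.log X := by gcongr
        _ ≤ u * Real.log X := by gcongr
    · have h3 : Real.log X ≤ 0 := Real.log_nonpos hX0.le hX1
      have h4 : ((1 + ε) * (D / l)) * Real.log X ≤ u * Real.log X :=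
        mul_le_mul_of_nonpos_right huD h3
      have h5 : ((1 + ε) * (D / l)) * (1 - 1 / X) ≤ ((1 + ε) * (D / l)) * Real.log X := by gcongr
      have h6 : ((1 + ε) * (D / l)) * (1 - 1 / X) = (D - x0 * y) / l + ε * ((D - x0 * y) / l) := by
        rw [mul_assoc, h2]
        ring
      have h7 : (D - x0 * y) / l = D / l - x0 * Y := by
        rw [hY]
        ring
      have h8 : -(ε * x0 * Y) ≤ ε * ((D - x0 * y) / l) := by
        rw [h7, mul_sub]
        have : 0 < ε * (D / l) := by positivity
        have : ε * (x0 * Y) = ε * x0 * Y := by ring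
        linarith
      linarith
  have s4' : (D - x0 * y) / l = D / l - x0 * Y := by
    rw [hY]
    ring
  -- the gain
  have hgain : (K2 / 2) * (D / l) + κ * Y - 4 * Y / l ≤ -D + g + u * Real.log G := by
    have h1 : u * Real.log (3 / 2 * D) = u * l + u * (K2 / 2 - 1) +
        u * Real.log (D / (x0 * y)) - u * Real.log 4 := by
      rw [s2, s3]
      ring
    have h2 : κ * Y ≤ (3 / 8 - x0 - 2 * ε - ε * x0) * Y := by
      apply mul_le_mul_of_nonneg_right _ hY0.le
      have : ε * x0 ≤ ε * 1 := by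
        apply mul_le_mul_of_nonneg_left _ hε0.le
        linarith
      linarith
    have h3 : (D / l) * (K2 / 2 - 1) + D / l = (K2 / 2) * (D / l) := by ring
    rw [s4'] at s4
    have h4 : (3 / 8 - x0 - 2 * ε - ε * x0) * Y = (Real.log 2 - ε) * Y -
        (Real.log 2 - 3 / 8 + ε) * Y - x0 * Y - ε * x0 * Y := by ring
    linarith
  refine lt_of_lt_of_le ?_ hgain
  -- the left side
  have hlL : 0 < L / Real.log L := by positivity
  have hK1pos : 0 < K1 := by linarith
  have h1ε : 0 < 1 - ε := by linarith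
  have r1 : K * (L / Real.log L) ≤ K1 * (L / Real.log L) := by gcongr
  have r2 : K1 * (L / Real.log L) ≤ K1 * ((D / 2 + 1 / 2) / ((1 - ε) * l)) := by gcongr
  have r3 : K1 * ((D / 2 + 1 / 2) / ((1 - ε) * l)) ≤ (K2 * (1 - ε)) *
      ((D / 2) / ((1 - ε) * l)) + K1 * ((1 / 2) / ((1 - ε) * l)) := by
    rw [add_div, mul_add]
    have : K1 * ((D / 2) / ((1 - ε) * l)) ≤ (K2 * (1 - ε)) * ((D / 2) / ((1 - ε) * l)) := by
      gcongr
    linarith
  have r4 : (K2 * (1 - ε)) * ((D / 2) / ((1 - ε) * l)) = (K2 / 2) * (D / l) := by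
    field_simp
  have r5 : K1 * ((1 / 2) / ((1 - ε) * l)) ≤ K1 / l := by
    have h1 : (1 / 2 : ℝ) / ((1 - ε) * l) ≤ 1 / l := by
      rw [div_le_div_iff₀ (by positivity) hl0]
      nlinarith
    calc K1 * ((1 / 2) / ((1 - ε) * l)) ≤ K1 * (1 / l) := by gcongr
      _ = K1 / l := by ring
  have r6 : K1 / l + 4 * Y / l < κ * Y := by
    have h1 : 4 * Y / l ≤ (κ / 2) * Y := by
      rw [div_le_iff₀ hκ0] at hl8
      rw [div_le_iff₀ hl0]
      nlinarith
    have h2 : K1 / l < (κ / 2) * Y := by
      rw [div_lt_iff₀ hκ0] at hyK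
      rw [hY, ← mul_div_assoc]
      apply div_lt_div_of_pos_right _ hl0
      linarith
    linarith
  linarith

end Pool.Agent.H598.HK
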